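import Pool.Agent.helper20.LCL.Func

/-!
# No measurable solution on the circle
-/

open MeasureTheory Filter Set
open scoped ENNReal

namespace LCLZ

/-- **Measure part**: from the deterministic statements `Fn_of`, `area` and `det` there is no
measurable solution of the local problem for the action of `ℤ²` on the circle by two rotations. -/
theorem no_solution
    (Fn_of : ∀ L : Cfg, (∀ x y, Rl L x y) → (∀ u v, {z : ℤ × ℤ | QS L z.1 z.2 u v}.Finite) →
      (∀ u v, {z : ℤ × ℤ | QE L z.1 z.2 u v}.Finite) → Fn L)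
    (area : ∀ L : Cfg, (∀ x y, Rl L x y) → Fn L → ∀ u v : ℤ,
      {z : ℤ × ℤ | QI L z.1 z.2 u v}.Finite ∧
      {z : ℤ × ℤ | QI L z.1 z.2 u v}.encard ≤ 2 * {z : ℤ × ℤ | QM L z.1 z.2 u v}.encard)
    (det : ∀ L : Cfg, (∀ x y, Rl L x y) → Nice L → (∃ x y, Out L x y) ∧
      ∃ p : ZMod 2, ∀ x y, Out L x y → col L x y + x + y = p)
    {X : Type*} [MeasurableSpace X] {μ : Measure X} [IsProbabilityMeasure μ] {T : ℤ × ℤ → X → X}
    {c : X → Cfg} (h : Stat μ T c) (herg : Ergodic (fun x => T (1, 0) (T (1, 0) x)) μ)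
    (hV : ∀ᵐ t ∂μ, ∀ x y, Rl (c t) x y) : False := by
  have aeS := h.fib RS_e RS_m
  have aeE := h.fib RE_e RE_m
  have aeA := h.fib RA_e RA_m
  have aeT := h.fib RT_e RT_m
  have aeK : ∀ᵐ t ∂μ, ∀ K : ℕ, Fun1 (RK K) (c t) → ∀ w, {z | RK K (c t) z w}.Finite :=
    ae_all_iff.2 fun K => h.fib (RK_e K) (RK_m K)
  have aeF : ∀ᵐ t ∂μ, Fn (c t) := by
    filter_upwards [hV, aeS, aeE] with t V hS hE
    exact Fn_of (c t) V (fun u v => hS (RS_f V) (u, v)) (fun u v => hE RE_f (u, v))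
  have aeI : ∀ᵐ t ∂μ, ∀ w, {z | RI (c t) z w}.Finite := by
    refine h.fin_of_le RI_e RI_m RM_e RM_m ?_ ?_
    · filter_upwards [hV, aeF] with t V F
      exact (area (c t) V F 0 0).2
    · filter_upwards [hV] with t V
      rw [Set.encard_le_one_iff]
      rintro ⟨u, v⟩ ⟨u', v'⟩ h1 h2
      obtain ⟨e1, e2⟩ := RM_f V h1 h2
      exact Prod.ext e1 e2
  have aeN : ∀ᵐ t ∂μ, Nice (c t) := by
    filter_upwards [hV, aeS, aeE, aeA, aeT, aeK, aeI] with t V hS hE hA hT hK hI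
    exact ⟨fun u v => hS (RS_f V) (u, v), fun u v => hE RE_f (u, v),
      fun u v => hA (RA_f V) (u, v), fun u v => hT RT_f (u, v),
      fun K u v => hK K (RK_f V K) (u, v), fun x y => hI (x, y)⟩
  -- the parity
  set A : Set Cfg := {L | ∃ x y : ℤ, Out L x y ∧ col L x y = x + y} with hA
  have hAm : MeasurableSet A := by
    refine measurableSet_setOfPred.2 ?_
    fun_prop
  have z2 : ∀ a b : ZMod 2, a = b ↔ a + b = 0 := by decide
  have key : ∀ L : Cfg, (∃ x y, Out L x y) → ∀ p : ZMod 2,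
      (∀ x y, Out L x y → col L x y + x + y = p) → (L ∈ A ↔ p = 0) := by
    intro L hne p hp
    constructor
    · rintro ⟨x, y, h1, h2⟩
      rw [← hp x y h1, add_assoc, ← z2]
      exact h2
    · rintro rfl
      obtain ⟨x, y, hxy⟩ := hne
      refine ⟨x, y, hxy, ?_⟩
      have := hp x y hxy
      rw [add_assoc, ← z2] at this
      exact this
  refine h.contra herg hAm ?_
  filter_upwards [hV, aeN] with t V N
  obtain ⟨hne, p, hp⟩ := det (c t) V N
  have h1 := key (c t) hne p hp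
  have hne' : ∃ x y, Out (sh (1, 0) (c t)) x y := by
    obtain ⟨x, y, hxy⟩ := hne
    refine ⟨x - 1, y, ?_⟩
    rw [Out_sh]
    simpa using hxy
  have hp' : ∀ x y, Out (sh (1, 0) (c t)) x y → col (sh (1, 0) (c t)) x y + x + y = p + 1 := by
    intro x y hxy
    rw [Out_sh] at hxy
    simp only [add_zero] at hxy
    have e1 : col (sh (1, 0) (c t)) x y = col (c t) (x + 1) y := by
      show col (c t) (x + 1) (y + 0) = _
      rw [add_zero]
    rw [e1, ← hp _ _ hxy]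
    push_cast
    have : (1 : ZMod 2) + 1 = 0 := by decide
    linear_combination -this
  have h2 := key (sh (1, 0) (c t)) hne' (p + 1) hp'
  rw [h1, h2]
  have fin2 : ∀ p : ZMod 2, p + 1 = 0 ↔ ¬ p = 0 := by decide
  exact fin2 p

/-- `borel_side`, from the deterministic statements -/
theorem borel_side_of
    (Fn_of : ∀ L : Cfg, (∀ x y, Rl L x y) → (∀ u v, {z : ℤ × ℤ | QS L z.1 z.2 u v}.Finite) →
      (∀ u v, {z : ℤ × ℤ | QE L z.1 z.2 u v}.Finite) → Fn L)
    (area : ∀ L : Cfg, (∀ x y, Rl L x y) → Fn L → ∀ u v : ℤ,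
      {z : ℤ × ℤ | QI L z.1 z.2 u v}.Finite ∧
      {z : ℤ × ℤ | QI L z.1 z.2 u v}.encard ≤ 2 * {z : ℤ × ℤ | QM L z.1 z.2 u v}.encard)
    (det : ∀ L : Cfg, (∀ x y, Rl L x y) → Nice L → (∃ x y, Out L x y) ∧
      ∃ p : ZMod 2, ∀ x y, Out L x y → col L x y + x + y = p) :
    ¬ ∃ F : AddCircle (1 : ℝ) → Lab, Measurable F ∧ ∀ t : AddCircle (1 : ℝ), ∀ i j : ℤ,
      Rl (fun m n => F (t + ((m * √2 + n * √3 : ℝ) : AddCircle (1 : ℝ)))) i j := by
  rintro ⟨F, hF, hR⟩
  refine no_solution Fn_of area det (rot_stat ((√2 : ℝ) : UnitAddCircle) ((√3 : ℝ) : UnitAddCircle) hF)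
    (rot_erg _ _ (order_irr irrational_sqrt_two)) (ae_of_all _ fun t x y => ?_)
  have := hR t x y
  convert this using 1
  funext m n
  simp only [rcfg, rot]
  congr 2
  rw [← AddCircle.coe_zsmul, ← AddCircle.coe_zsmul, ← AddCircle.coe_add, zsmul_eq_mul,
    zsmul_eq_mul]

end LCLZ
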