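import Pool.Agent.helper20.LCL.Meas

/-!
# Equivariance of the relations on configurations
-/

open MeasureTheory Filter Set
open scoped ENNReal

namespace LCLZ

variable {L : Cfg} {w : ℤ × ℤ}

lemma pos_sh (w : ℤ × ℤ) (L : Cfg) (x y : ℤ) (n : ℕ) :
    pos (sh w L) x y n = pos L (x + w.1) (y + w.2) n - w.2 := by
  induction n with
  | zero => simp
  | succ n ih =>
    rw [pos_succ, pos_succ, ih]
    show pos L (x + w.1) (y + w.2) n - w.2 +
      dv L (x + n + w.1) (pos L (x + w.1) (y + w.2) n - w.2 + w.2) = _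
    rw [sub_add_cancel, add_right_comm x (n : ℤ) w.1]
    ring

lemma E_sh (x y : ℤ) (n : ℕ) : E (sh w L) (x + n) (pos (sh w L) x y n) ↔
    E L (x + w.1 + n) (pos L (x + w.1) (y + w.2) n) := by
  show E L (x + n + w.1) (pos (sh w L) x y n + w.2) ↔ _
  rw [pos_sh, sub_add_cancel, add_right_comm x (n : ℤ) w.1]

lemma al_sh (x y : ℤ) (n : ℕ) : al (sh w L) x y n ↔ al L (x + w.1) (y + w.2) n := by
  unfold al
  exact forall_congr' fun m => imp_congr_right fun _ => not_congr (E_sh x y m)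

lemma QS_sh (x y u v : ℤ) :
    QS (sh w L) x y u v ↔ QS L (x + w.1) (y + w.2) (u + w.1) (v + w.2) := by
  refine and_congr Iff.rfl (and_congr Iff.rfl (exists_congr fun n => ?_))
  rw [al_sh, pos_sh]
  refine and_congr (by omega) (and_congr Iff.rfl (by omega))

lemma QE_sh (x y u v : ℤ) :
    QE (sh w L) x y u v ↔ QE L (x + w.1) (y + w.2) (u + w.1) (v + w.2) := by
  refine and_congr Iff.rfl (and_congr Iff.rfl (exists_congr fun n => ?_))
  rw [al_sh, pos_sh]
  refine and_congr (by omega) (and_congr Iff.rfl (by omega))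

lemma apex_sh (u v : ℤ) : apex (sh w L) u v ↔ apex L (u + w.1) (v + w.2) := by
  unfold apex
  refine and_congr Iff.rfl (and_congr Iff.rfl ?_)
  show Rt L (u + 1 + w.1) (v + dv L (u + w.1) (v + w.2) + w.2) ↔ _
  rw [add_right_comm u 1, add_right_comm v]

lemma sameS_sh (x y u v : ℤ) :
    sameS (sh w L) x y u v ↔ sameS L (x + w.1) (y + w.2) (u + w.1) (v + w.2) := by
  unfold sameS
  refine or_congr (and_congr Iff.rfl (exists_congr fun n => ?_))
    (and_congr Iff.rfl (exists_congr fun n => ?_)) <;>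
  · rw [al_sh, pos_sh]
    refine and_congr (by omega) (and_congr Iff.rfl (by omega))

lemma QA_sh (x y u v : ℤ) :
    QA (sh w L) x y u v ↔ QA L (x + w.1) (y + w.2) (u + w.1) (v + w.2) :=
  and_congr (sameS_sh x y u v) (apex_sh u v)

lemma exists_shift (b : ℤ) {p q : ℤ → Prop} (h : ∀ y, p y ↔ q (y + b)) :
    (∃ y, p y) ↔ ∃ y, q y := by
  constructor
  · rintro ⟨y, hy⟩; exact ⟨y + b, (h y).1 hy⟩
  · rintro ⟨y, hy⟩; exact ⟨y - b, (h _).2 (by rwa [sub_add_cancel])⟩

lemma forall_shift (b : ℤ) {p q : ℤ → Prop} (h : ∀ y, p y ↔ q (y + b)) :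
    (∀ y, p y) ↔ ∀ y, q y := by
  constructor
  · intro H y
    have := (h (y - b)).1 (H _)
    rwa [sub_add_cancel] at this
  · intro H y
    exact (h y).2 (H _)

lemma fin_sh (x y : ℤ) : fin (sh w L) x y ↔ fin L (x + w.1) (y + w.2) := by
  unfold fin
  refine exists_congr fun n => exists_shift w.2 fun y0 => ?_
  rw [al_sh, pos_sh]
  have e : x - (n : ℤ) + w.1 = x + w.1 - n := by ring
  rw [e]
  refine and_congr ?_ (and_congr ?_ (and_congr Iff.rfl (by omega)))
  · show M L (x - n + w.1) (y0 + w.2) ↔ _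
    rw [e]
  · show S L (x - n + w.1) (y0 + w.2) ↔ _
    rw [e]

lemma Inf_sh (x y : ℤ) : Inf (sh w L) x y ↔ Inf L (x + w.1) (y + w.2) :=
  and_congr Iff.rfl (not_congr (fin_sh x y))

lemma QT_sh (x y u v : ℤ) :
    QT (sh w L) x y u v ↔ QT L (x + w.1) (y + w.2) (u + w.1) (v + w.2) := by
  unfold QT
  refine and_congr (by omega) (and_congr (by omega) (and_congr (Inf_sh u v) ?_))
  refine forall_shift w.2 fun y' => ?_
  rw [Inf_sh]
  exact imp_congr (by omega) Iff.rfl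

lemma close_sh (K : ℕ) (x y : ℤ) :
    close K (sh w L) x y ↔ close K L (x + w.1) (y + w.2) := by
  unfold close
  refine exists_shift w.2 fun y' => ?_
  rw [Inf_sh]
  exact and_congr (by omega) (and_congr (by omega) Iff.rfl)

lemma QK_sh (K : ℕ) (x y u v : ℤ) :
    QK K (sh w L) x y u v ↔ QK K L (x + w.1) (y + w.2) (u + w.1) (v + w.2) := by
  unfold QK
  refine and_congr (sameS_sh x y u v) (and_congr (Inf_sh u v) (and_congr (close_sh K u v) ?_))
  refine forall_congr' fun n => imp_congr_right fun _ => not_congr ?_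
  rw [close_sh, pos_sh, sub_add_cancel, add_right_comm u (n : ℤ)]

lemma Isl_sh (a β : ℤ) (N : ℕ) : Isl (sh w L) a β N ↔ Isl L (a + w.1) (β + w.2) N := by
  rw [isl_iff, isl_iff, al_sh, al_sh, E_sh, E_sh, pos_sh, pos_sh]
  have e : β + 10 + w.2 = β + w.2 + 10 := by ring
  rw [e]
  refine and_congr Iff.rfl (and_congr Iff.rfl (and_congr Iff.rfl (and_congr Iff.rfl
    (and_congr Iff.rfl (and_congr Iff.rfl (by omega))))))

lemma inI_sh (a β : ℤ) (N : ℕ) (x y : ℤ) :
    inI (sh w L) a β N x y ↔ inI L (a + w.1) (β + w.2) N (x + w.1) (y + w.2) := by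
  unfold inI
  have e : β + 10 + w.2 = β + w.2 + 10 := by ring
  refine exists_congr fun n => ?_
  rw [pos_sh, pos_sh, e]
  refine and_congr Iff.rfl (and_congr (by omega) (and_congr (by omega) (by omega)))

lemma Sub_sh (a2 β2 : ℤ) (N2 : ℕ) (a1 β1 : ℤ) (N1 : ℕ) :
    Sub (sh w L) a2 β2 N2 a1 β1 N1 ↔
      Sub L (a2 + w.1) (β2 + w.2) N2 (a1 + w.1) (β1 + w.2) N1 := by
  unfold Sub
  refine exists_congr fun k => and_congr Iff.rfl (and_congr (by omega) (and_congr Iff.rfl ?_))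
  refine forall_congr' fun n => imp_congr_right fun _ => ?_
  rw [pos_sh, pos_sh, pos_sh, pos_sh, add_right_comm β1 10, add_right_comm β2 10]
  exact and_congr (by omega) (by omega)

lemma QI_sh (x y u v : ℤ) :
    QI (sh w L) x y u v ↔ QI L (x + w.1) (y + w.2) (u + w.1) (v + w.2) := by
  unfold QI
  exact exists_congr fun N => and_congr (Isl_sh u v N) (inI_sh u v N x y)

lemma QM_sh (x y u v : ℤ) :
    QM (sh w L) x y u v ↔ QM L (x + w.1) (y + w.2) (u + w.1) (v + w.2) := by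
  unfold QM
  refine exists_congr fun N => and_congr (Isl_sh u v N) (and_congr (inI_sh u v N x y) ?_)
  refine forall_shift w.1 fun a => forall_shift w.2 fun β => forall_congr' fun N2 => ?_
  rw [Isl_sh, inI_sh, Sub_sh]

lemma Out_sh (x y : ℤ) : Out (sh w L) x y ↔ Out L (x + w.1) (y + w.2) := by
  unfold Out
  refine forall_shift w.1 fun a => forall_shift w.2 fun β => forall_congr' fun N2 => ?_
  rw [Isl_sh, inI_sh]

/-! ### the relations in the form used for mass transport -/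

def RS (L : Cfg) (z w : ℤ × ℤ) : Prop := QS L z.1 z.2 w.1 w.2
def RE (L : Cfg) (z w : ℤ × ℤ) : Prop := QE L z.1 z.2 w.1 w.2
def RA (L : Cfg) (z w : ℤ × ℤ) : Prop := QA L z.1 z.2 w.1 w.2
def RT (L : Cfg) (z w : ℤ × ℤ) : Prop := QT L z.1 z.2 w.1 w.2
def RK (K : ℕ) (L : Cfg) (z w : ℤ × ℤ) : Prop := QK K L z.1 z.2 w.1 w.2
def RI (L : Cfg) (z w : ℤ × ℤ) : Prop := QI L w.1 w.2 z.1 z.2
def RM (L : Cfg) (z w : ℤ × ℤ) : Prop := QM L w.1 w.2 z.1 z.2

lemma RS_e : Equi RS := fun _ _ _ _ => QS_sh _ _ _ _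
lemma RE_e : Equi RE := fun _ _ _ _ => QE_sh _ _ _ _
lemma RA_e : Equi RA := fun _ _ _ _ => QA_sh _ _ _ _
lemma RT_e : Equi RT := fun _ _ _ _ => QT_sh _ _ _ _
lemma RK_e (K : ℕ) : Equi (RK K) := fun _ _ _ _ => QK_sh K _ _ _ _
lemma RI_e : Equi RI := fun _ _ _ _ => QI_sh _ _ _ _
lemma RM_e : Equi RM := fun _ _ _ _ => QM_sh _ _ _ _

lemma RS_m : Mb RS := fun _ _ => measurableSet_setOfPred.2 (mb_QS _ _ _ _)
lemma RE_m : Mb RE := fun _ _ => measurableSet_setOfPred.2 (mb_QE _ _ _ _)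
lemma RA_m : Mb RA := fun _ _ => measurableSet_setOfPred.2 (mb_QA _ _ _ _)
lemma RT_m : Mb RT := fun _ _ => measurableSet_setOfPred.2 (mb_QT _ _ _ _)
lemma RK_m (K : ℕ) : Mb (RK K) := fun _ _ => measurableSet_setOfPred.2 (mb_QK K _ _ _ _)
lemma RI_m : Mb RI := fun _ _ => measurableSet_setOfPred.2 (mb_QI _ _ _ _)
lemma RM_m : Mb RM := fun _ _ => measurableSet_setOfPred.2 (mb_QM _ _ _ _)

end LCLZ
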