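import Pool.Agent.helper20.LCL.Equiv

/-!
# Each site designates at most one site
-/

open MeasureTheory Filter Set
open scoped ENNReal

namespace LCLZ

variable {L : Cfg}

/-- `b` is reached from `a` along a strand -/
def Rch (L : Cfg) (a b : ℤ × ℤ) : Prop :=
  M L a.1 a.2 ∧ ∃ n : ℕ, b.1 = a.1 + n ∧ al L a.1 a.2 n ∧ pos L a.1 a.2 n = b.2

lemma sameS_iff (x y u v : ℤ) : sameS L x y u v ↔ Rch L (x, y) (u, v) ∨ Rch L (u, v) (x, y) :=
  Iff.rfl

section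
variable (V : ∀ x y, Rl L x y)
include V

omit V in
lemma Rch.trans {a b c : ℤ × ℤ} (h1 : Rch L a b) (h2 : Rch L b c) : Rch L a c := by
  obtain ⟨hM, n, e1, e2, e3⟩ := h1
  obtain ⟨-, m, e4, e5, e6⟩ := h2
  refine ⟨hM, n + m, by push_cast; omega, ?_, ?_⟩
  · rw [al_add]
    refine ⟨e2, ?_⟩
    rw [e3, ← e1]; exact e5
  · rw [pos_add, e3, ← e1]; exact e6

lemma Rch.fwd {a b c : ℤ × ℤ} (h1 : Rch L a b) (h2 : Rch L a c) : Rch L b c ∨ Rch L c b := by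
  obtain ⟨hM, n, e1, e2, e3⟩ := h1
  obtain ⟨-, m, e4, e5, e6⟩ := h2
  rcases le_total n m with h | h
  · left
    obtain ⟨k, rfl⟩ := Nat.exists_eq_add_of_le h
    rw [al_add] at e5
    rw [pos_add] at e6
    refine ⟨?_, k, by push_cast at e4; omega, ?_, ?_⟩
    · rw [e1, ← e3]; exact M_pos V hM e2
    · rw [e1, ← e3]; exact e5.2
    · rw [e1, ← e3]; exact e6
  · right
    obtain ⟨k, rfl⟩ := Nat.exists_eq_add_of_le h
    rw [al_add] at e2
    rw [pos_add] at e3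
    refine ⟨?_, k, by push_cast at e1; omega, ?_, ?_⟩
    · rw [e4, ← e6]; exact M_pos V hM e5
    · rw [e4, ← e6]; exact e2.2
    · rw [e4, ← e6]; exact e3

lemma Rch.bwd_aux {b c : ℤ × ℤ} (hb : M L b.1 b.2) (hc : M L c.1 c.2) {n k : ℕ}
    (e1 : b.1 + ((k + n : ℕ) : ℤ) = c.1 + n)
    (e2 : al L b.1 b.2 (k + n)) (e5 : al L c.1 c.2 n)
    (e3 : pos L b.1 b.2 (k + n) = pos L c.1 c.2 n) : Rch L b c := by
  rw [al_add] at e2
  rw [pos_add] at e3
  have hcol : c.1 = b.1 + k := by push_cast at e1; omega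
  rw [hcol] at e5 e3 hc
  have := pos_inj V (M_pos V hb e2.1) hc e2.2 e5 e3
  exact ⟨hb, k, hcol, e2.1, this⟩

lemma Rch.bwd {a b c : ℤ × ℤ} (h1 : Rch L b a) (h2 : Rch L c a) : Rch L b c ∨ Rch L c b := by
  obtain ⟨hb, n, e1, e2, e3⟩ := h1
  obtain ⟨hc, m, e4, e5, e6⟩ := h2
  rcases le_total m n with h | h
  · left
    obtain ⟨k, rfl⟩ := Nat.exists_eq_add_of_le' h
    exact Rch.bwd_aux V hb hc (by rw [← e1, ← e4]) e2 e5 (by rw [e3, e6])
  · right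
    obtain ⟨k, rfl⟩ := Nat.exists_eq_add_of_le' h
    exact Rch.bwd_aux V hc hb (by rw [← e1, ← e4]) e5 e2 (by rw [e3, e6])

lemma sameS_comp {x y u v u' v' : ℤ} (h1 : sameS L x y u v) (h2 : sameS L x y u' v') :
    Rch L (u, v) (u', v') ∨ Rch L (u', v') (u, v) := by
  rw [sameS_iff] at h1 h2
  rcases h1 with h1 | h1 <;> rcases h2 with h2 | h2
  · exact h1.fwd V h2
  · exact Or.inr (h2.trans h1)
  · exact Or.inl (h1.trans h2)
  · exact Rch.bwd V h1 h2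

omit V in
/-- it is enough to exclude a positive number of steps -/
lemma eq_of_Rch {P : ℤ → ℤ → Prop} {u v u' v' : ℤ} (h : Rch L (u, v) (u', v'))
    (hP : P u' v')
    (hno : ∀ n : ℕ, 1 ≤ n → M L u v → al L u v n → ¬ P (u + n) (pos L u v n)) :
    u = u' ∧ v = v' := by
  obtain ⟨hM, n, e1, e2, e3⟩ := h
  simp only at hM e1 e2 e3
  rcases Nat.eq_zero_or_pos n with h0 | h0
  · subst h0
    simp only [pos_zero, Nat.cast_zero, add_zero] at e1 e3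
    exact ⟨e1.symm, e3⟩
  · exfalso
    apply hno n h0 hM e2
    rw [← e1, e3]
    exact hP

lemma RS_f : Fun1 RS L := by
  rintro ⟨x, y⟩ ⟨u, v⟩ ⟨u', v'⟩ ⟨h1, h2, n, h3, h4, h5⟩ ⟨h1', h2', n', h3', h4', h5'⟩
  have a1 : Rch L (u, v) (x, y) := ⟨h1, n, h3, h4, h5⟩
  have a2 : Rch L (u', v') (x, y) := ⟨h1', n', h3', h4', h5'⟩
  have key : ∀ {u v u' v' : ℤ}, Rch L (u, v) (u', v') → S L u' v' → u = u' ∧ v = v' :=
    fun h hS => eq_of_Rch (P := S L) h hS fun n hn hM ha => not_S_pos V hM hn ha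
  rcases Rch.bwd V a1 a2 with h | h
  · obtain ⟨e1, e2⟩ := key h h2'
    exact Prod.ext e1 e2
  · obtain ⟨e1, e2⟩ := key h h2
    exact Prod.ext e1.symm e2.symm

omit V in
lemma RE_f : Fun1 RE L := by
  rintro ⟨x, y⟩ ⟨u, v⟩ ⟨u', v'⟩ ⟨h1, h2, n, h3, h4, h5⟩ ⟨h1', h2', n', h3', h4', h5'⟩
  simp only at *
  have : n = n' := end_unique h4 (by rw [← h3, h5]; exact h2) h4' (by rw [← h3', h5']; exact h2')
  subst this
  exact Prod.ext (by simp only; omega) (by simp only; omega)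

lemma Rt_pos {x y : ℤ} (h : Rt L x y) : ∀ {n : ℕ}, al L x y n → Rt L (x + n) (pos L x y n) := by
  intro n
  induction n with
  | zero => intro _; simpa using h
  | succ n ih =>
    intro ha
    rw [al_succ] at ha
    have := (V _ _).nR (ih ha.1) ha.2
    rw [pos_succ]
    convert this using 1
    push_cast; ring

lemma RA_f : Fun1 RA L := by
  rintro ⟨x, y⟩ ⟨u, v⟩ ⟨u', v'⟩ ⟨h1, h2⟩ ⟨h1', h2'⟩
  simp only at *
  have key : ∀ {u v u' v' : ℤ}, Rch L (u, v) (u', v') → apex L u v → apex L u' v' →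
      u = u' ∧ v = v' := by
    intro u v u' v' h ha ha'
    refine eq_of_Rch (P := Lf L) h ha'.1 fun n hn hM hal hL => ?_
    obtain ⟨m, rfl⟩ := Nat.exists_eq_add_of_le hn
    rw [al_add] at hal
    rw [pos_add] at hL
    have e1 : pos L u v 1 = v + dv L u v := by rw [show (1 : ℕ) = 0 + 1 from rfl, pos_succ]; simp
    have e2 : u + ((1 : ℕ) : ℤ) = u + 1 := by simp
    rw [e1, e2] at hL hal
    have hR := Rt_pos V ha.2.2 hal.2
    have e3 : u + ((1 + m : ℕ) : ℤ) = u + 1 + m := by push_cast; ring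
    rw [e3] at hL
    exact (V _ _).lr hL hR
  rcases sameS_comp V h1 h1' with h | h
  · obtain ⟨e1, e2⟩ := key h h2 h2'
    exact Prod.ext e1 e2
  · obtain ⟨e1, e2⟩ := key h h2' h2
    exact Prod.ext e1.symm e2.symm

omit V in
lemma RT_f : Fun1 RT L := by
  rintro ⟨x, y⟩ ⟨u, v⟩ ⟨u', v'⟩ ⟨h1, h2, h3, h4⟩ ⟨h1', h2', h3', h4'⟩
  simp only at *
  subst h1 h1'
  refine Prod.ext rfl ?_
  simp only
  by_contra hne
  rcases lt_or_gt_of_ne hne with h | h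
  · exact h4 _ h h3'
  · exact h4' _ h h3

lemma RK_f (K : ℕ) : Fun1 (RK K) L := by
  rintro ⟨x, y⟩ ⟨u, v⟩ ⟨u', v'⟩ ⟨h1, h2, h3, h4⟩ ⟨h1', h2', h3', h4'⟩
  simp only at *
  rcases sameS_comp V h1 h1' with h | h
  · obtain ⟨e1, e2⟩ := eq_of_Rch (P := close K L) h h3' fun n hn _ _ => h4 n hn
    exact Prod.ext e1 e2
  · obtain ⟨e1, e2⟩ := eq_of_Rch (P := close K L) h h3 fun n hn _ _ => h4' n hn
    exact Prod.ext e1.symm e2.symm

lemma RM_f {x y u v u' v' : ℤ} (h : QM L x y u v) (h' : QM L x y u' v') : u = u' ∧ v = v' := by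
  obtain ⟨N, h1, h2, h3⟩ := h
  obtain ⟨N', h1', h2', h3'⟩ := h'
  rcases lam V h1 h1' h2 h2' with h | h | h
  · exact ⟨h.1, h.2.1⟩
  · exact absurd h (h3 _ _ _ h1' h2')
  · exact absurd h (h3' _ _ _ h1 h2)

end

end LCLZ
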