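import Pool.Agent.helper13.LCL.Defs

/-!
# Mass transport for random configurations on `ℤ²`
-/

open MeasureTheory Filter Set
open scoped ENNReal

namespace LCLZ

instance : MeasurableSpace Lab := ⊤
instance : MeasurableSingletonClass Lab := ⟨fun _ => trivial⟩

/-- translate of a configuration -/
def sh (w : ℤ × ℤ) (L : Cfg) : Cfg := fun x y => L (x + w.1) (y + w.2)

/-- equivariant binary relations between sites -/
def Equi (P : Cfg → ℤ × ℤ → ℤ × ℤ → Prop) : Prop :=
  ∀ u L z w, P (sh u L) z w ↔ P L (z + u) (w + u)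

/-- a random stationary configuration -/
structure Stat {X : Type*} [MeasurableSpace X] (μ : Measure X) (T : ℤ × ℤ → X → X)
    (c : X → Cfg) : Prop where
  mp : ∀ g, MeasurePreserving (T g) μ μ
  meas : Measurable c
  eq : ∀ g x, c (T g x) = sh g (c x)

section general

variable {X : Type*} [MeasurableSpace X] {μ : Measure X} {T : ℤ × ℤ → X → X} {c : X → Cfg}

/-- the number of elements of a set of sites, as an extended real -/
lemma tsum_ind (S : Set (ℤ × ℤ)) [DecidablePred (· ∈ S)] :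
    ∑' w : ℤ × ℤ, (if w ∈ S then (1 : ℝ≥0∞) else 0) = (S.encard : ℝ≥0∞) := by
  rw [← ENNReal.tsum_set_one, tsum_subtype S (fun _ => (1 : ℝ≥0∞))]
  congr 1
  ext w
  simp [Set.indicator]

/-- number of sites `w` with `P L z w` -/
noncomputable def outN (P : Cfg → ℤ × ℤ → ℤ × ℤ → Prop) (L : Cfg) (z : ℤ × ℤ) : ℝ≥0∞ :=
  ({w | P L z w} : Set (ℤ × ℤ)).encard

/-- number of sites `z` with `P L z w` -/
noncomputable def inN (P : Cfg → ℤ × ℤ → ℤ × ℤ → Prop) (L : Cfg) (w : ℤ × ℤ) : ℝ≥0∞ :=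
  ({z | P L z w} : Set (ℤ × ℤ)).encard

open Classical in
lemma outN_eq (P : Cfg → ℤ × ℤ → ℤ × ℤ → Prop) (L : Cfg) (z : ℤ × ℤ) :
    outN P L z = ∑' w : ℤ × ℤ, (if P L z w then (1 : ℝ≥0∞) else 0) := by
  rw [outN, ← tsum_ind]
  rfl

open Classical in
lemma inN_eq (P : Cfg → ℤ × ℤ → ℤ × ℤ → Prop) (L : Cfg) (w : ℤ × ℤ) :
    inN P L w = ∑' z : ℤ × ℤ, (if P L z w then (1 : ℝ≥0∞) else 0) := by
  rw [inN, ← tsum_ind]
  rfl

/-- measurability of a relation -/
def Mb (P : Cfg → ℤ × ℤ → ℤ × ℤ → Prop) : Prop := ∀ z w, MeasurableSet {L | P L z w}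

open Classical in
lemma Stat.mass (h : Stat μ T c) {P : Cfg → ℤ × ℤ → ℤ × ℤ → Prop} (hE : Equi P) (hM : Mb P) :
    ∫⁻ x, outN P (c x) 0 ∂μ = ∫⁻ x, inN P (c x) 0 ∂μ := by
  have hms : ∀ z w, MeasurableSet {x | P (c x) z w} := fun z w => h.meas (hM z w)
  have hmf : ∀ z w, Measurable (fun x => if P (c x) z w then (1 : ℝ≥0∞) else 0) := fun z w =>
    Measurable.ite (hms z w) measurable_const measurable_const
  simp only [outN_eq, inN_eq]
  rw [lintegral_tsum (fun w => (hmf 0 w).aemeasurable),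
    lintegral_tsum (fun z => (hmf z 0).aemeasurable),
    ← (Equiv.neg (ℤ × ℤ)).tsum_eq]
  congr 1
  ext w
  have h1 : ∀ x, (if P (c x) w 0 then (1 : ℝ≥0∞) else 0) =
      (fun x => if P (c x) 0 (-w) then (1 : ℝ≥0∞) else 0) (T w x) := by
    intro x
    simp only [h.eq]
    congr 1
    rw [hE w (c x) 0 (-w)]
    simp
  simp only [Equiv.neg_apply]
  rw [lintegral_congr h1, (h.mp w).lintegral_comp (hmf 0 (-w))]

/-- the invariant form of the statement that something holds almost surely -/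
lemma Stat.ae_all (h : Stat μ T c) {Q : Cfg → ℤ × ℤ → Prop}
    (hE : ∀ u L w, Q (sh u L) w ↔ Q L (w + u)) (h0 : ∀ᵐ x ∂μ, Q (c x) 0) :
    ∀ᵐ x ∂μ, ∀ w, Q (c x) w := by
  rw [ae_all_iff]
  intro w
  have := (h.mp w).quasiMeasurePreserving.ae h0
  filter_upwards [this] with x hx
  rw [h.eq, hE] at hx
  simpa using hx

lemma Equi.in_fin {P : Cfg → ℤ × ℤ → ℤ × ℤ → Prop} (hE : Equi P) (u : ℤ × ℤ) (L : Cfg)
    (w : ℤ × ℤ) : {z | P (sh u L) z w}.Finite ↔ {z | P L z (w + u)}.Finite := by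
  have : {z | P (sh u L) z w} = (· + u) ⁻¹' {z | P L z (w + u)} := by
    ext z; simp [hE u L z w]
  rw [this]
  constructor
  · intro hf
    exact Set.Finite.of_preimage hf (add_right_surjective u)
  · intro hf
    exact hf.preimage (add_left_injective u).injOn

lemma fin_of_lt_top {S : Set (ℤ × ℤ)} (h : (S.encard : ℝ≥0∞) < ⊤) : S.Finite := by
  rw [← Set.encard_lt_top_iff]
  by_contra hc
  have : S.encard = ⊤ := by
    rw [not_lt, top_le_iff] at hc; exact hc
  rw [this] at h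
  simp at h

/-- comparison: if `|{w : P 0 w}| ≤ 2 |{w : Q 0 w}|` and `|{z : Q z 0}| ≤ 1`, then almost surely
all sets `{z : P z w}` are finite -/
lemma Stat.fin_of_le [IsProbabilityMeasure μ] (h : Stat μ T c)
    {P Q : Cfg → ℤ × ℤ → ℤ × ℤ → Prop} (hP : Equi P) (hPM : Mb P) (hQ : Equi Q) (hQM : Mb Q)
    (h1 : ∀ᵐ x ∂μ, ({w | P (c x) 0 w} : Set (ℤ × ℤ)).encard ≤ 2 * {w | Q (c x) 0 w}.encard)
    (h2 : ∀ᵐ x ∂μ, ({z | Q (c x) z 0} : Set (ℤ × ℤ)).encard ≤ 1) :
    ∀ᵐ x ∂μ, ∀ w, {z | P (c x) z w}.Finite := by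
  have hlt : ∫⁻ x, inN P (c x) 0 ∂μ < ⊤ := by
    rw [← h.mass hP hPM]
    calc ∫⁻ x, outN P (c x) 0 ∂μ ≤ ∫⁻ x, 2 * outN Q (c x) 0 ∂μ := by
          apply lintegral_mono_ae
          filter_upwards [h1] with x hx
          unfold outN
          have : (({w | P (c x) 0 w} : Set (ℤ × ℤ)).encard : ℝ≥0∞) ≤
              ((2 * {w | Q (c x) 0 w}.encard : ℕ∞) : ℝ≥0∞) := by exact_mod_cast hx
          refine this.trans (le_of_eq ?_)
          simp
      _ = 2 * ∫⁻ x, outN Q (c x) 0 ∂μ := lintegral_const_mul' _ _ (by simp)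
      _ = 2 * ∫⁻ x, inN Q (c x) 0 ∂μ := by rw [h.mass hQ hQM]
      _ ≤ 2 * ∫⁻ _, 1 ∂μ := by
          gcongr 2 * ?_
          apply lintegral_mono_ae
          filter_upwards [h2] with x hx
          unfold inN
          exact_mod_cast hx
      _ = 2 := by simp
      _ < ⊤ := by simp
  have hmeas : Measurable (fun x => inN P (c x) 0) := by
    classical
    simp only [inN_eq]
    exact Measurable.tsum fun z =>
      Measurable.ite (h.meas (hPM z 0)) measurable_const measurable_const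
  have hae := ae_lt_top hmeas hlt.ne
  refine h.ae_all (Q := fun L w => {z | P L z w}.Finite) (fun u L w => hP.in_fin u L w) ?_
  filter_upwards [hae] with x hx
  exact fin_of_lt_top hx

/-- the relation `P` is single valued -/
def Fun1 (P : Cfg → ℤ × ℤ → ℤ × ℤ → Prop) (L : Cfg) : Prop :=
  ∀ z w w', P L z w → P L z w' → w = w'

/-- **distinguished points**: almost surely, if `P` is single valued then its fibres are finite -/
lemma Stat.fib [IsProbabilityMeasure μ] (h : Stat μ T c)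
    {P : Cfg → ℤ × ℤ → ℤ × ℤ → Prop} (hP : Equi P) (hPM : Mb P) :
    ∀ᵐ x ∂μ, Fun1 P (c x) → ∀ w, {z | P (c x) z w}.Finite := by
  set P' : Cfg → ℤ × ℤ → ℤ × ℤ → Prop := fun L z w => P L z w ∧ ∀ w', P L z w' → w' = w with hP'
  have hE' : Equi P' := by
    intro u L z w
    simp only [hP', hP u L]
    refine and_congr_right fun _ => ⟨fun H w' hw' => ?_, fun H w' hw' => ?_⟩
    · have := H (w' - u) (by simpa using hw')
      rw [← this]; simp
    · have := H (w' + u) hw'
      simpa using this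
  have hM' : Mb P' := by
    intro z w
    have : {L | P' L z w} = {L | P L z w} ∩ ⋂ w' : ℤ × ℤ, {L | P L z w' → w' = w} := by
      ext L; simp [hP']
    rw [this]
    refine (hPM z w).inter (MeasurableSet.iInter fun w' => ?_)
    by_cases hw : w' = w
    · simp [hw]
    · have : {L | P L z w' → w' = w} = {L | P L z w'}ᶜ := by ext L; simp [hw]
      rw [this]; exact (hPM z w').compl
  have h1 : ∀ L z, ({w | P' L z w} : Set (ℤ × ℤ)).encard ≤ 1 := by
    intro L z
    rw [Set.encard_le_one_iff]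
    rintro a b ⟨ha, -⟩ ⟨-, hb⟩
    exact hb a ha
  have hlt : ∫⁻ x, inN P' (c x) 0 ∂μ < ⊤ := by
    rw [← h.mass hE' hM']
    calc ∫⁻ x, outN P' (c x) 0 ∂μ ≤ ∫⁻ _, 1 ∂μ := by
          apply lintegral_mono
          intro x
          show outN P' (c x) 0 ≤ 1
          unfold outN
          exact_mod_cast h1 (c x) 0
      _ < ⊤ := by simp
  have hmeas : Measurable (fun x => inN P' (c x) 0) := by
    classical
    simp only [inN_eq]
    exact Measurable.tsum fun z =>
      Measurable.ite (h.meas (hM' z 0)) measurable_const measurable_const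
  have hae := ae_lt_top hmeas hlt.ne
  have := h.ae_all (Q := fun L w => {z | P' L z w}.Finite) (fun u L w => hE'.in_fin u L w) (by
    filter_upwards [hae] with x hx
    exact fin_of_lt_top hx)
  filter_upwards [this] with x hx hF w
  refine (hx w).subset ?_
  intro z hz
  exact ⟨hz, fun w' hw' => hF z w' w hw' hz⟩

end general

end LCLZ
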