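import Pool.Agent.helper20.LCL.MT

/-!
# The irrational rotation
-/

open MeasureTheory Filter Set
open scoped ENNReal

namespace LCLZ

section general

variable {X : Type*} [MeasurableSpace X] {μ : Measure X} {T : ℤ × ℤ → X → X} {c : X → Cfg}

/-- a set of configurations cannot be flipped by `e₁` if `2e₁` is ergodic -/
lemma Stat.contra [IsProbabilityMeasure μ] (h : Stat μ T c)
    (herg : Ergodic (fun x => T (1, 0) (T (1, 0) x)) μ) {A : Set Cfg} (hA : MeasurableSet A)
    (hflip : ∀ᵐ x ∂μ, (sh (1, 0) (c x) ∈ A ↔ c x ∉ A)) : False := by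
  have hA' : MeasurableSet (c ⁻¹' A) := h.meas hA
  have hf2 : ∀ᵐ x ∂μ, (sh (1, 0) (c (T (1, 0) x)) ∈ A ↔ c (T (1, 0) x) ∉ A) :=
    (h.mp (1, 0)).quasiMeasurePreserving.ae hflip
  have hinv : (fun x => T (1, 0) (T (1, 0) x)) ⁻¹' (c ⁻¹' A) =ᵐ[μ] c ⁻¹' A := by
    filter_upwards [hflip, hf2] with x h1 h2
    rw [← h.eq] at h1 h2
    apply propext
    show c (T (1, 0) (T (1, 0) x)) ∈ A ↔ c x ∈ A
    rw [h2, h1, not_not]
  have hmu : μ (c ⁻¹' A) = μ (c ⁻¹' A)ᶜ := by
    rw [← (h.mp (1, 0)).measure_preimage hA'.nullMeasurableSet]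
    apply measure_congr
    filter_upwards [hflip] with x h1
    rw [← h.eq] at h1
    exact propext h1
  have hone := prob_add_prob_compl (μ := μ) hA'
  rcases herg.quasiErgodic.ae_empty_or_univ₀ hA'.nullMeasurableSet hinv with h0 | h0
  · have h1 : μ (c ⁻¹' A) = 0 := by rw [measure_congr h0]; simp
    rw [← hmu, h1] at hone
    simp at hone
  · have h1 : μ (c ⁻¹' A) = 1 := by rw [measure_congr h0]; simp
    rw [← hmu, h1] at hone
    norm_num at hone

end general

/-- the action of `ℤ²` on the circle by two rotations -/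
def rot (a b : UnitAddCircle) (g : ℤ × ℤ) (x : UnitAddCircle) : UnitAddCircle :=
  x + (g.1 • a + g.2 • b)

/-- the configuration of a point -/
def rcfg (a b : UnitAddCircle) (f : UnitAddCircle → Lab) (x : UnitAddCircle) : Cfg :=
  fun m n => f (rot a b (m, n) x)

lemma rot_stat (a b : UnitAddCircle) {f : UnitAddCircle → Lab} (hf : Measurable f) :
    Stat (volume : Measure UnitAddCircle) (rot a b) (rcfg a b f) where
  mp g := measurePreserving_add_right volume _
  meas := by
    rw [measurable_pi_iff]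
    intro m
    rw [measurable_pi_iff]
    intro n
    exact hf.comp (measurable_id.add_const _)
  eq g x := by
    funext m n
    simp only [rcfg, rot, sh]
    congr 1
    module

lemma rot_erg (a b : UnitAddCircle) (ha : addOrderOf (a + a) = 0) :
    Ergodic (fun x => rot a b (1, 0) (rot a b (1, 0) x)) (volume : Measure UnitAddCircle) := by
  have h := (AddCircle.ergodic_add_right (p := (1 : ℝ)) (a := a + a)).2 ha
  convert h using 2 with x
  simp [rot, add_assoc]

instance : IsProbabilityMeasure (volume : Measure UnitAddCircle) := by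
  constructor
  rw [AddCircle.measure_univ]
  simp

lemma order_irr {s : ℝ} (hs : Irrational s) : addOrderOf ((s : UnitAddCircle) + s) = 0 := by
  rw [addOrderOf_eq_zero_iff']
  intro n hn h
  have h1 : (((n : ℝ) * (s + s) : ℝ) : UnitAddCircle) = 0 := by
    rw [← h, ← AddCircle.coe_add, ← AddCircle.coe_nsmul, nsmul_eq_mul]
  rw [AddCircle.coe_eq_zero_iff] at h1
  obtain ⟨k, hk⟩ := h1
  apply hs
  refine ⟨(k : ℚ) / (2 * n), ?_⟩
  have hn' : (n : ℝ) ≠ 0 := by positivity
  push_cast
  rw [div_eq_iff (by positivity)]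
  simp at hk
  rw [hk]; ring

end LCLZ
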