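import Pool.Agent.helper13.LCL.Nice
import Pool.Agent.helper20.LCL.Rot

/-!
# Measurability of the relations on configurations
-/

open MeasureTheory Filter Set
open scoped ENNReal

namespace LCLZ

lemma mb_lab (x y : ℤ) : Measurable (fun L : Cfg => L x y) :=
  (measurable_pi_apply y).comp (measurable_pi_apply x)

lemma mb_ofLab {p : Lab → Prop} (x y : ℤ) : Measurable (fun L : Cfg => p (L x y)) :=
  (measurable_from_top (f := p)).comp (mb_lab x y)

@[fun_prop] lemma mb_B (x y : ℤ) : Measurable (fun L => B L x y) :=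
  mb_ofLab (p := fun a => a.b = true) x y
@[fun_prop] lemma mb_Lf (x y : ℤ) : Measurable (fun L => Lf L x y) :=
  mb_ofLab (p := fun a => a.l = true) x y
@[fun_prop] lemma mb_Rt (x y : ℤ) : Measurable (fun L => Rt L x y) :=
  mb_ofLab (p := fun a => a.r = true) x y
@[fun_prop] lemma mb_S (x y : ℤ) : Measurable (fun L => S L x y) :=
  mb_ofLab (p := fun a => a.st = true) x y
@[fun_prop] lemma mb_E (x y : ℤ) : Measurable (fun L => E L x y) :=
  mb_ofLab (p := fun a => a.en = true) x y
@[fun_prop] lemma mb_T (x y : ℤ) : Measurable (fun L => T L x y) := by unfold T; fun_prop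
@[fun_prop] lemma mb_M (x y : ℤ) : Measurable (fun L => M L x y) := by unfold M; fun_prop
@[fun_prop] lemma mb_dv (x y : ℤ) : Measurable (fun L => dv L x y) :=
  (measurable_from_top (f := fun a : Lab => a.d.v)).comp (mb_lab x y)
@[fun_prop] lemma mb_col (x y : ℤ) (p : ZMod 2) : Measurable (fun L => col L x y = p) :=
  mb_ofLab (p := fun a => a.c = p) x y

/-- evaluating a measurable family at a measurable integer -/
lemma mb_subst {α : Type*} [MeasurableSpace α] {F : ℤ → Cfg → α} (hF : ∀ i, Measurable (F i))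
    {g : Cfg → ℤ} (hg : Measurable g) : Measurable (fun L => F (g L) L) := by
  intro s hs
  have : (fun L => F (g L) L) ⁻¹' s = ⋃ i : ℤ, (g ⁻¹' {i}) ∩ (F i ⁻¹' s) := by
    ext L; simp
  rw [this]
  exact MeasurableSet.iUnion fun i => (hg (measurableSet_singleton i)).inter (hF i hs)

@[fun_prop] lemma mb_pos (x y : ℤ) (n : ℕ) : Measurable (fun L => pos L x y n) := by
  induction n with
  | zero => exact measurable_const
  | succ n ih =>
    simp only [pos_succ]
    exact ih.add (mb_subst (F := fun i L => dv L (x + n) i) (fun i => mb_dv _ _) ih)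

@[fun_prop] lemma mb_E' (x : ℤ) {g : Cfg → ℤ} (hg : Measurable g) :
    Measurable (fun L => E L x (g L)) :=
  mb_subst (F := fun i L => E L x i) (fun _ => mb_E _ _) hg
@[fun_prop] lemma mb_Rt' (x : ℤ) {g : Cfg → ℤ} (hg : Measurable g) :
    Measurable (fun L => Rt L x (g L)) :=
  mb_subst (F := fun i L => Rt L x i) (fun _ => mb_Rt _ _) hg

@[fun_prop] lemma mb_al (x y : ℤ) (n : ℕ) : Measurable (fun L => al L x y n) := by
  unfold al
  fun_prop

@[fun_prop] lemma mb_QS (x y u v : ℤ) : Measurable (fun L => QS L x y u v) := by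
  unfold QS
  fun_prop

@[fun_prop] lemma mb_QE (x y u v : ℤ) : Measurable (fun L => QE L x y u v) := by
  unfold QE
  fun_prop

@[fun_prop] lemma mb_apex (u v : ℤ) : Measurable (fun L => apex L u v) := by
  unfold apex
  fun_prop

@[fun_prop] lemma mb_sameS (x y u v : ℤ) : Measurable (fun L => sameS L x y u v) := by
  unfold sameS
  fun_prop

@[fun_prop] lemma mb_QA (x y u v : ℤ) : Measurable (fun L => QA L x y u v) := by
  unfold QA
  fun_prop

@[fun_prop] lemma mb_fin (x y : ℤ) : Measurable (fun L => fin L x y) := by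
  unfold fin
  fun_prop

@[fun_prop] lemma mb_Inf (x y : ℤ) : Measurable (fun L => Inf L x y) := by
  unfold Inf
  fun_prop

@[fun_prop] lemma mb_QT (x y u v : ℤ) : Measurable (fun L => QT L x y u v) := by
  unfold QT
  fun_prop

@[fun_prop] lemma mb_close (K : ℕ) (x y : ℤ) : Measurable (fun L => close K L x y) := by
  unfold close
  fun_prop

@[fun_prop] lemma mb_close' (K : ℕ) (x : ℤ) {g : Cfg → ℤ} (hg : Measurable g) :
    Measurable (fun L => close K L x (g L)) :=
  mb_subst (F := fun i L => close K L x i) (fun _ => mb_close _ _ _) hg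

@[fun_prop] lemma mb_QK (K : ℕ) (x y u v : ℤ) : Measurable (fun L => QK K L x y u v) := by
  unfold QK
  fun_prop

lemma isl_iff (L : Cfg) (a β : ℤ) (N : ℕ) : Isl L a β N ↔
    B L a β ∧ S L a β ∧ al L a β N ∧ E L (a + N) (pos L a β N) ∧ al L a (β + 10) N ∧
      E L (a + N) (pos L a (β + 10) N) ∧ pos L a (β + 10) N = pos L a β N + 10 :=
  ⟨fun h => ⟨h.b, h.s, h.la, h.le, h.ha, h.he, h.eq⟩,
    fun ⟨h1, h2, h3, h4, h5, h6, h7⟩ => ⟨h1, h2, h3, h4, h5, h6, h7⟩⟩

@[fun_prop] lemma mb_eq {f g : Cfg → ℤ} (hf : Measurable f) (hg : Measurable g) :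
    Measurable (fun L => f L = g L) := measurableSet_setOfPred.1 (measurableSet_eq_fun hf hg)

@[fun_prop] lemma mb_le {f g : Cfg → ℤ} (hf : Measurable f) (hg : Measurable g) :
    Measurable (fun L => f L ≤ g L) := measurableSet_setOfPred.1 (measurableSet_le hf hg)

@[fun_prop] lemma mb_Isl (a β : ℤ) (N : ℕ) : Measurable (fun L => Isl L a β N) := by
  simp only [isl_iff]
  fun_prop

@[fun_prop] lemma mb_inI (a β : ℤ) (N : ℕ) (x y : ℤ) :
    Measurable (fun L => inI L a β N x y) := by
  unfold inI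
  fun_prop

@[fun_prop] lemma mb_Sub (a2 β2 : ℤ) (N2 : ℕ) (a1 β1 : ℤ) (N1 : ℕ) :
    Measurable (fun L => Sub L a2 β2 N2 a1 β1 N1) := by
  unfold Sub
  fun_prop

@[fun_prop] lemma mb_QI (x y u v : ℤ) : Measurable (fun L => QI L x y u v) := by
  unfold QI
  fun_prop

@[fun_prop] lemma mb_QM (x y u v : ℤ) : Measurable (fun L => QM L x y u v) := by
  unfold QM
  fun_prop

@[fun_prop] lemma mb_Out (x y : ℤ) : Measurable (fun L => Out L x y) := by
  unfold Out
  fun_prop

end LCLZ
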